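import Pool.Agent.Q234.KT.Stm

/-!
# Job KT-HU: hulls of sets on the torus
-/

set_option autoImplicit false

open scoped BigOperators
open Finset Pool.Agent.TH235.PP Pool.Agent.Q234.KT

namespace Pool.Agent.Q64.KT.HU

variable {L : ℕ}

lemma adj_symm {u v : Site L} (h : adj u v) : adj v u := by
  unfold adj at *
  tauto

lemma conn_union {S S' : Finset (Site L)} (hS : Conn S) (hS' : Conn S') (hne : (S ∩ S').Nonempty) :
    Conn (S ∪ S') := by
  intro T hT hTne hTneq
  by_contra hno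
  push Not at hno
  have key : ∀ R : Finset (Site L), Conn R → R ⊆ S ∪ S' → (T ∩ R).Nonempty → R ⊆ T := by
    intro R hR hRS hTR
    by_cases heq : T ∩ R = R
    · rw [← heq]
      exact inter_subset_left
    · exfalso
      obtain ⟨a, ha, b, hb, hb', hab⟩ := hR (T ∩ R) inter_subset_right hTR heq
      have h1 : a ∈ T := (mem_inter.1 ha).1
      have h2 : b ∉ T := fun h => hb' (mem_inter.2 ⟨h, hb⟩)
      exact hno a h1 b (hRS hb) h2 hab
  obtain ⟨x, hx⟩ := hne
  have hxS := (mem_inter.1 hx).1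
  have hxS' := (mem_inter.1 hx).2
  have hboth : S ⊆ T ∧ S' ⊆ T := by
    obtain ⟨y, hy⟩ := hTne
    rcases mem_union.1 (hT hy) with h1 | h1
    · have h2 : S ⊆ T := key S hS subset_union_left ⟨y, mem_inter.2 ⟨hy, h1⟩⟩
      exact ⟨h2, key S' hS' subset_union_right ⟨x, mem_inter.2 ⟨h2 hxS, hxS'⟩⟩⟩
    · have h2 : S' ⊆ T := key S' hS' subset_union_right ⟨y, mem_inter.2 ⟨hy, h1⟩⟩
      exact ⟨key S hS subset_union_left ⟨x, mem_inter.2 ⟨h2 hxS', hxS⟩⟩, h2⟩
  exact hTneq (Subset.antisymm hT (union_subset hboth.1 hboth.2))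

lemma conn_univ [NeZero L] : Conn (univ : Finset (Site L)) := by
  intro T _ hTne hTneq
  by_contra hno
  push Not at hno
  apply hTneq
  have hcl : ∀ a ∈ T, ∀ b, adj a b → b ∈ T := by
    intro a ha b hab
    by_contra hb
    exact hno a ha b (mem_univ b) hb hab
  have h1 : ∀ (k : ℕ) (a : Site L), a ∈ T → (a.1 + (k : ZMod L), a.2) ∈ T := by
    intro k
    induction k with
    | zero => intro a ha; simpa using ha
    | succ k ih =>
      intro a ha
      have h2 := hcl _ (ih a ha) (a.1 + (k : ZMod L) + 1, a.2) (Or.inl rfl)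
      rw [Nat.cast_succ, ← add_assoc]
      exact h2
  have h2 : ∀ (k : ℕ) (a : Site L), a ∈ T → (a.1, a.2 + (k : ZMod L)) ∈ T := by
    intro k
    induction k with
    | zero => intro a ha; simpa using ha
    | succ k ih =>
      intro a ha
      have h2 := hcl _ (ih a ha) (a.1, a.2 + (k : ZMod L) + 1) (Or.inr (Or.inl rfl))
      rw [Nat.cast_succ, ← add_assoc]
      exact h2
  obtain ⟨a, ha⟩ := hTne
  apply eq_univ_of_forall
  intro b
  have h3 := h2 (b.2 - a.2).val _ (h1 (b.1 - a.1).val a ha)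
  simp only [ZMod.natCast_zmod_val] at h3
  have h4 : (a.1 + (b.1 - a.1), a.2 + (b.2 - a.2)) = b := by
    ext
    · simp
    · simp
  rw [h4] at h3
  exact h3

lemma conn_bx (n : ℕ) (u : Site L) : Conn (bx n u) := by
  intro T hT hTne hTneq
  by_contra hno
  push Not at hno
  apply hTneq
  have hcl : ∀ a ∈ T, ∀ b ∈ bx n u, adj a b → b ∈ T := by
    intro a ha b hb hab
    by_contra hb'
    exact hno a ha b hb hb' hab
  have hmem : ∀ i j : ℕ, i < n → j < n → ((u.1 + (i : ZMod L), u.2 + (j : ZMod L)) : Site L) ∈ bx n u := by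
    intro i j hi hj
    unfold bx
    exact mem_image.2 ⟨(⟨i, hi⟩, ⟨j, hj⟩), mem_univ _, rfl⟩
  have h1 : ∀ i j : ℕ, i < n → j < n →
      (((u.1 + (i : ZMod L), u.2 + (j : ZMod L)) : Site L) ∈ T ↔
        ((u.1 + ((0 : ℕ) : ZMod L), u.2 + (j : ZMod L)) : Site L) ∈ T) := by
    intro i
    induction i with
    | zero => intro j _ _; exact Iff.rfl
    | succ i ih =>
      intro j hi hj
      rw [← ih j (by omega) hj]
      have hadj : adj ((u.1 + (i : ZMod L), u.2 + (j : ZMod L)) : Site L)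
          (u.1 + ((i + 1 : ℕ) : ZMod L), u.2 + (j : ZMod L)) := by
        left
        rw [Nat.cast_succ, ← add_assoc]
      exact ⟨fun h => hcl _ h _ (hmem i j (by omega) hj) (adj_symm hadj),
        fun h => hcl _ h _ (hmem (i + 1) j hi hj) hadj⟩
  have h2 : ∀ j : ℕ, j < n →
      (((u.1 + ((0 : ℕ) : ZMod L), u.2 + (j : ZMod L)) : Site L) ∈ T ↔
        ((u.1 + ((0 : ℕ) : ZMod L), u.2 + ((0 : ℕ) : ZMod L)) : Site L) ∈ T) := by
    intro j
    induction j with
    | zero => intro _; exact Iff.rfl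
    | succ j ih =>
      intro hj
      rw [← ih (by omega)]
      have hadj : adj ((u.1 + ((0 : ℕ) : ZMod L), u.2 + (j : ZMod L)) : Site L)
          (u.1 + ((0 : ℕ) : ZMod L), u.2 + ((j + 1 : ℕ) : ZMod L)) := by
        right; left
        rw [Nat.cast_succ, ← add_assoc]
      exact ⟨fun h => hcl _ h _ (hmem 0 j (by omega) (by omega)) (adj_symm hadj),
        fun h => hcl _ h _ (hmem 0 (j + 1) (by omega) hj) hadj⟩
  have h3 : ∀ x : Fin n × Fin n, sh u x ∈ T ↔
      ((u.1 + ((0 : ℕ) : ZMod L), u.2 + ((0 : ℕ) : ZMod L)) : Site L) ∈ T := by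
    intro x
    exact (h1 x.1 x.2 x.1.2 x.2.2).trans (h2 x.2 x.2.2)
  obtain ⟨a, ha⟩ := hTne
  have ha' := hT ha
  unfold bx at ha'
  obtain ⟨x, _, hx⟩ := mem_image.1 ha'
  have h0 := (h3 x).1 (by rw [hx]; exact ha)
  apply Subset.antisymm hT
  intro b hb
  unfold bx at hb
  obtain ⟨y, _, hy⟩ := mem_image.1 hb
  rw [← hy]
  exact (h3 y).2 h0

/-- **Job KT-HU.** -/
theorem main (hani : AniS) : HullS := by
  intro L _
  have hex : ∀ X : Finset (Site L), ∃ S : Finset (Site L), X ⊆ S ∧ Conn S ∧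
      ∀ S' : Finset (Site L), X ⊆ S' → Conn S' → S.card ≤ S'.card := by
    classical
    intro X
    obtain ⟨S, hS, hmin⟩ := exists_min_image
      (univ.filter fun S : Finset (Site L) => X ⊆ S ∧ Conn S) Finset.card
      ⟨univ, mem_filter.2 ⟨mem_univ _, subset_univ _, conn_univ⟩⟩
    have hS2 := (mem_filter.1 hS).2
    exact ⟨S, hS2.1, hS2.2, fun S' h1 h2 => hmin S' (mem_filter.2 ⟨mem_univ _, h1, h2⟩)⟩
  choose h hX hC hmin using hex
  refine ⟨h, ?_, hX, hC, ⟨?_, ?_, ?_⟩, ?_, ?_⟩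
  · have h1 := hmin ∅ ∅ (Subset.refl _) (by
      intro T hT hTne
      obtain ⟨a, ha⟩ := hTne
      exact absurd (hT ha) (notMem_empty a))
    rw [card_empty] at h1
    exact card_eq_zero.1 (Nat.le_zero.1 h1)
  · intro X
    exact card_le_card (hX X)
  · intro X Y hXY
    exact hmin X (h Y) (hXY.trans (hX Y)) (hC Y)
  · intro X Y hne
    refine (hmin (X ∪ Y) (h X ∪ h Y) (union_subset_union (hX X) (hX Y))
      (conn_union (hC X) (hC Y) (hne.mono (inter_subset_inter (hX X) (hX Y))))).trans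
      (card_union_le _ _)
  · intro v k
    apply hani L _ v k
    intro S hS
    obtain ⟨h1, h2, h3⟩ := mem_filter.1 hS
    obtain ⟨X, _, hXS⟩ := mem_image.1 h1
    refine ⟨?_, h2, h3⟩
    rw [← hXS]
    exact hC X
  · intro n u
    refine (hmin (bx n u) (bx n u) (Subset.refl _) (conn_bx n u)).trans ?_
    unfold bx
    refine card_image_le.trans ?_
    rw [card_univ, Fintype.card_prod, Fintype.card_fin, sq]

end Pool.Agent.Q64.KT.HU
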